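import Mathlib

set_option autoImplicit false

namespace Pool.Agent.H25.MB

open Finset

/-- the `l¹`-norm of an integer vector -/
def nm {n : ℕ} (v : Fin n → ℤ) : ℕ := ∑ i, (v i).natAbs

theorem nm_zero {n : ℕ} : nm (0 : Fin n → ℤ) = 0 := by simp [nm]

theorem nm_neg {n : ℕ} (v : Fin n → ℤ) : nm (-v) = nm v := by simp [nm]

theorem nm_sub_comm {n : ℕ} (v w : Fin n → ℤ) : nm (v - w) = nm (w - v) := by
  rw [← nm_neg, neg_sub]

/-- a colouring of `ℤ ^ n` by the vectors in a ball in which two different points of the same colour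
have distance at least `T` -/
theorem packing (n T : ℕ) (hT : 1 ≤ T) : ∃ p : (Fin n → ℤ) → (Fin n → ℤ),
    (∀ a, nm (p a) < T) ∧ ∀ a b, p a = p b → a ≠ b → T ≤ nm (a - b) := by
  -- a maximal separated set
  obtain ⟨C, hC⟩ : ∃ C : Set (Fin n → ℤ),
      Maximal (fun C : Set (Fin n → ℤ) => C.Pairwise fun a b => T ≤ nm (a - b)) C := by
    refine zorn_subset {C : Set (Fin n → ℤ) | C.Pairwise fun a b => T ≤ nm (a - b)} ?_
    intro c hc hch
    refine ⟨⋃₀ c, ?_, fun s hs => Set.subset_sUnion_of_mem hs⟩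
    rw [Set.mem_ofPred_eq, Set.pairwise_sUnion hch.directedOn]
    exact hc
  have hex : ∀ a : Fin n → ℤ, ∃ c ∈ C, nm (a - c) < T := by
    intro a
    by_contra hcon
    push Not at hcon
    have haC : a ∉ C := by
      intro ha
      have := hcon a ha
      rw [sub_self, nm_zero] at this
      omega
    have h1 : (insert a C).Pairwise fun a b => T ≤ nm (a - b) := by
      rw [Set.pairwise_insert]
      refine ⟨hC.prop, fun b hb _ => ⟨hcon b hb, ?_⟩⟩
      rw [nm_sub_comm]
      exact hcon b hb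
    exact haC (hC.le_of_ge h1 (Set.subset_insert a C) (Set.mem_insert a C))
  choose c hc hcn using hex
  refine ⟨fun a => a - c a, hcn, ?_⟩
  intro a b hab hne
  have e : a - b = c a - c b := by
    have : a - c a = b - c b := hab
    linear_combination (norm := abel) this
  rw [e]
  refine hC.prop (hc a) (hc b) ?_
  intro h
  apply hne
  have : a - c a = b - c b := hab
  rw [h] at this
  exact sub_left_injective this

/-- the ball -/
noncomputable def Ball (n T : ℕ) : Finset (Fin n → ℤ) :=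
  (Fintype.piFinset fun _ : Fin n => Finset.Icc (-(T : ℤ)) T).filter fun v => nm v < T

theorem mem_Ball {n T : ℕ} {v : Fin n → ℤ} : v ∈ Ball n T ↔ nm v < T := by
  unfold Ball
  rw [Finset.mem_filter, Fintype.mem_piFinset]
  refine ⟨fun h => h.2, fun h => ⟨fun i => ?_, h⟩⟩
  have h1 : (v i).natAbs ≤ nm v :=
    Finset.single_le_sum (f := fun i => (v i).natAbs) (fun _ _ => Nat.zero_le _) (Finset.mem_univ i)
  rw [Finset.mem_Icc]
  omega

theorem sum_Icc (z : ℝ) (hz0 : 0 < z) (hz1 : z < 1) (T : ℕ) :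
    ∑ t ∈ Finset.Icc (-(T : ℤ)) T, z ^ t.natAbs = (1 + z - 2 * z ^ (T + 1)) / (1 - z) := by
  have h1 : (1 - z) ≠ 0 := by linarith
  induction T with
  | zero =>
    have : Finset.Icc (-((0 : ℕ) : ℤ)) ((0 : ℕ) : ℤ) = {0} := by
      ext t
      simp
    rw [this, Finset.sum_singleton]
    field_simp
    simp
    ring
  | succ T ih =>
    have e : Finset.Icc (-((T + 1 : ℕ) : ℤ)) ((T + 1 : ℕ) : ℤ) =
        insert ((T : ℤ) + 1) (insert (-((T : ℤ) + 1)) (Finset.Icc (-(T : ℤ)) T)) := by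
      ext t
      simp only [Finset.mem_insert, Finset.mem_Icc]
      push_cast
      omega
    rw [e, Finset.sum_insert, Finset.sum_insert, ih]
    · have e1 : ((T : ℤ) + 1).natAbs = T + 1 := by omega
      have e2 : (-((T : ℤ) + 1)).natAbs = T + 1 := by omega
      rw [e1, e2]
      field_simp
      ring
    · simp only [Finset.mem_Icc]
      omega
    · simp only [Finset.mem_insert, Finset.mem_Icc]
      omega

theorem card_Ball (n T : ℕ) (z : ℝ) (hz0 : 0 < z) (hz1 : z < 1) :
    ((Ball n T).card : ℝ) * z ^ T ≤ ((1 + z) / (1 - z)) ^ n := by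
  have h1 : ((Ball n T).card : ℝ) * z ^ T ≤ ∑ v ∈ Ball n T, z ^ nm v := by
    rw [← nsmul_eq_mul, ← Finset.sum_const]
    refine Finset.sum_le_sum fun v hv => ?_
    exact pow_le_pow_of_le_one hz0.le hz1.le (mem_Ball.1 hv).le
  have h2 : ∑ v ∈ Ball n T, z ^ nm v ≤
      ∑ v ∈ Fintype.piFinset fun _ : Fin n => Finset.Icc (-(T : ℤ)) T, z ^ nm v :=
    Finset.sum_le_sum_of_subset_of_nonneg (Finset.filter_subset _ _)
      fun v _ _ => pow_nonneg hz0.le _
  have h3 : ∑ v ∈ Fintype.piFinset fun _ : Fin n => Finset.Icc (-(T : ℤ)) T, z ^ nm v =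
      (∑ t ∈ Finset.Icc (-(T : ℤ)) T, z ^ t.natAbs) ^ n := by
    have e : ∀ v : Fin n → ℤ, z ^ nm v = ∏ i, z ^ (v i).natAbs := by
      intro v
      unfold nm
      rw [Finset.prod_pow_eq_pow_sum]
    simp only [e]
    rw [Finset.sum_prod_piFinset (Finset.Icc (-(T : ℤ)) T) fun _ t => z ^ t.natAbs]
    simp
  refine h1.trans (h2.trans (h3.le.trans ?_))
  have h4 : (0 : ℝ) < 1 - z := by linarith
  refine pow_le_pow_left₀ (Finset.sum_nonneg fun t _ => pow_nonneg hz0.le _) ?_ n
  rw [sum_Icc z hz0 hz1]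
  refine div_le_div_of_nonneg_right ?_ h4.le
  have := pow_pos hz0 (T + 1)
  linarith

end Pool.Agent.H25.MB
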