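import Pool.Agent.H25.MB.M1

set_option autoImplicit false

namespace Pool.Agent.H25.MB

open Finset

/-- the index of the block of the coordinate `i` -/
def blk {n : ℕ} (m : ℕ) (i : Fin n) : Fin (n / m + 1) :=
  ⟨i / m, Nat.lt_succ_of_le (Nat.div_le_div_right i.2.le)⟩

/-- for an integer vector there is a shift, constant on the blocks, which avoids the gaps -/
theorem exists_shift {n m : ℕ} (hm : 1 ≤ m) (u : Fin n → ℤ) :
    ∃ j : Fin (n / m + 1) → Fin (m + 1),
      ∀ i, (u i - (j (blk m i) : ℕ)) % ((m : ℤ) + 1) ≠ m := by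
  have h : ∀ b : Fin (n / m + 1), ∃ j : Fin (m + 1), ∀ i : Fin n, blk m i = b →
      (u i - (j : ℕ)) % ((m : ℤ) + 1) ≠ m := by
    intro b
    by_contra hcon
    push Not at hcon
    choose g hg1 hg2 using hcon
    have hinj : Function.Injective g := by
      intro j j' hjj
      have h1 := hg2 j
      have h2 := hg2 j'
      rw [hjj] at h1
      have h3 : (u (g j') - (j : ℕ)) % ((m : ℤ) + 1) = (u (g j') - (j' : ℕ)) % ((m : ℤ) + 1) := by
        rw [h1, h2]
      have h4 : ((m : ℤ) + 1) ∣ (u (g j') - (j' : ℕ)) - (u (g j') - (j : ℕ)) :=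
        Int.ModEq.dvd h3
      have h5 : ((m : ℤ) + 1) ∣ ((j : ℕ) : ℤ) - (j' : ℕ) := by
        have e : (u (g j') - (j' : ℕ)) - (u (g j') - (j : ℕ)) = ((j : ℕ) : ℤ) - (j' : ℕ) := by ring
        rwa [e] at h4
      have j1 := j.2
      have j2 := j'.2
      have h6 : ((j : ℕ) : ℤ) - (j' : ℕ) = 0 := by
        refine Int.eq_zero_of_abs_lt_dvd h5 ?_
        rw [abs_lt]
        constructor <;> omega
      apply Fin.ext
      omega
    -- all the values lie in the block, which has at most `m` elements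
    have hval : ∀ j, (g j : ℕ) ∈ Finset.Ico ((b : ℕ) * m) ((b : ℕ) * m + m) := by
      intro j
      have h1 : (g j : ℕ) / m = b := congrArg Fin.val (hg1 j)
      rw [Finset.mem_Ico, ← h1]
      constructor
      · exact Nat.div_mul_le_self _ _
      · have := Nat.div_add_mod (g j : ℕ) m
        have h2 := Nat.mod_lt (g j : ℕ) (show 0 < m by omega)
        nlinarith [Nat.mul_comm ((g j : ℕ) / m) m]
    have hcard : Fintype.card (Fin (m + 1)) ≤ (Finset.Ico ((b : ℕ) * m) ((b : ℕ) * m + m)).card := by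
      rw [← Finset.card_univ]
      refine Finset.card_le_card_of_injOn (fun j => (g j : ℕ)) (fun j _ => hval j) ?_
      intro j _ j' _ hjj
      exact hinj (Fin.ext hjj)
    simp at hcard
  choose j hj using h
  exact ⟨j, fun i => hj (blk m i) i rfl⟩

/-- the colouring by the shift and by the colour of the index of the cell -/
theorem colouring (n m T : ℕ) (hm : 1 ≤ m) (hT : 1 ≤ T) :
    ∃ c : (Fin n → ℝ) → (Fin (n / m + 1) → Fin (m + 1)) × {v // v ∈ Ball n T},
      ∀ k : ℕ, n * m < k * T → ∀ f : Fin (k + 1) → (Fin n → ℝ),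
        (∀ i j : Fin (k + 1), ∑ t : Fin n, |f i t - f j t| = |((i : ℕ) : ℝ) - ((j : ℕ) : ℝ)|) →
        ∃ i j : Fin (k + 1), c (f i) ≠ c (f j) := by
  obtain ⟨p, hp1, hp2⟩ := packing n T hT
  choose sh hsh using fun u : Fin n → ℤ => exists_shift hm u
  let u : (Fin n → ℝ) → Fin n → ℤ := fun x i => ⌊x i * T⌋
  let a : (Fin n → ℝ) → Fin n → ℤ := fun x i =>
    (u x i - (sh (u x) (blk m i) : ℕ)) / ((m : ℤ) + 1)
  refine ⟨fun x => (sh (u x), ⟨p (a x), mem_Ball.2 (hp1 _)⟩), ?_⟩
  intro k hk f hf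
  by_contra hcon
  push Not at hcon
  have hTr : (0 : ℝ) < T := by exact_mod_cast hT
  -- the position of a point in its cell
  have hpos : ∀ x : Fin n → ℝ, ∀ i, ((sh (u x) (blk m i) : ℕ) : ℝ) + a x i * (m + 1) ≤ x i * T ∧
      x i * T < (sh (u x) (blk m i) : ℕ) + a x i * (m + 1) + m := by
    intro x i
    have h1 := Int.emod_add_mul_ediv (u x i - (sh (u x) (blk m i) : ℕ)) ((m : ℤ) + 1)
    have h2 := Int.emod_nonneg (u x i - (sh (u x) (blk m i) : ℕ)) (show ((m : ℤ) + 1) ≠ 0 by omega)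
    have h3 := Int.emod_lt_of_pos (u x i - (sh (u x) (blk m i) : ℕ))
      (show (0 : ℤ) < (m : ℤ) + 1 by omega)
    have h4 := hsh (u x) i
    set r := (u x i - (sh (u x) (blk m i) : ℕ)) % ((m : ℤ) + 1) with hr
    have h5 : r ≤ m - 1 := by omega
    have h6 : u x i = (sh (u x) (blk m i) : ℕ) + a x i * (m + 1) + r := by
      have e : a x i = (u x i - (sh (u x) (blk m i) : ℕ)) / ((m : ℤ) + 1) := rfl
      rw [e]
      linarith [mul_comm ((m : ℤ) + 1) ((u x i - (sh (u x) (blk m i) : ℕ)) / ((m : ℤ) + 1))]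
    have h7 : (u x i : ℝ) ≤ x i * T := Int.floor_le _
    have h8 : x i * T < u x i + 1 := Int.lt_floor_add_one _
    have h9 : (u x i : ℝ) = (sh (u x) (blk m i) : ℕ) + a x i * (m + 1) + r := by
      exact_mod_cast h6
    have h10 : (0 : ℝ) ≤ r := by exact_mod_cast h2
    have h11 : (r : ℝ) ≤ m - 1 := by exact_mod_cast h5
    constructor <;> linarith
  -- two points of the same colour
  have hsep : ∀ x y : Fin n → ℝ, sh (u x) = sh (u y) → ∀ i,
      (((a x - a y) i).natAbs : ℝ) ≤ |x i - y i| * T ∧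
      (a x i ≠ a y i → (((a x - a y) i).natAbs : ℝ) < |x i - y i| * T) := by
    intro x y hxy i
    obtain ⟨h1, h2⟩ := hpos x i
    obtain ⟨h3, h4⟩ := hpos y i
    rw [hxy] at h1 h2
    have e : |x i - y i| * T = |x i * T - y i * T| := by
      rw [← sub_mul, abs_mul, abs_of_pos hTr]
    rw [e, Nat.cast_natAbs, Pi.sub_apply]
    push_cast
    have hm' : (1 : ℝ) ≤ m := by exact_mod_cast hm
    rcases lt_trichotomy (a x i) (a y i) with h | h | h
    · have h5 : ((a x i : ℤ) : ℝ) + 1 ≤ a y i := by exact_mod_cast h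
      rw [abs_of_neg (by linarith : ((a x i : ℤ) : ℝ) - a y i < 0)]
      have h6 : |x i * T - y i * T| ≥ -(x i * T - y i * T) := neg_le_abs _
      have h7 : -(((a x i : ℤ) : ℝ) - a y i) < -(x i * T - y i * T) := by
        nlinarith
      exact ⟨by linarith, fun _ => by linarith⟩
    · rw [h, sub_self, abs_zero]
      exact ⟨abs_nonneg _, fun h' => absurd rfl h'⟩
    · have h5 : ((a y i : ℤ) : ℝ) + 1 ≤ a x i := by exact_mod_cast h
      rw [abs_of_pos (by linarith : (0 : ℝ) < ((a x i : ℤ) : ℝ) - a y i)]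
      have h6 : |x i * T - y i * T| ≥ x i * T - y i * T := le_abs_self _
      have h7 : (((a x i : ℤ) : ℝ) - a y i) < (x i * T - y i * T) := by
        nlinarith
      exact ⟨by linarith, fun _ => by linarith⟩
  -- consecutive points lie in the same cell
  have hsh' : ∀ i j : Fin (k + 1), sh (u (f i)) = sh (u (f j)) := fun i j =>
    congrArg Prod.fst (hcon i j)
  have hpp : ∀ i j : Fin (k + 1), p (a (f i)) = p (a (f j)) := fun i j =>
    congrArg Subtype.val (congrArg Prod.snd (hcon i j))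
  have hcell : ∀ i j : Fin (k + 1), (j : ℕ) = i + 1 → a (f i) = a (f j) := by
    intro i j hij
    by_contra hne
    have h1 := hp2 _ _ (hpp i j) hne
    have h2 : ((nm (a (f i) - a (f j)) : ℕ) : ℝ) < (∑ t : Fin n, |f i t - f j t|) * T := by
      unfold nm
      push_cast
      rw [Finset.sum_mul]
      obtain ⟨t, ht⟩ := Function.ne_iff.1 hne
      refine Finset.sum_lt_sum (fun t _ => ?_) ⟨t, Finset.mem_univ t, ?_⟩
      · have := (hsep (f i) (f j) (hsh' i j) t).1
        simpa using this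
      · have := (hsep (f i) (f j) (hsh' i j) t).2 ht
        simpa using this
    rw [hf i j, hij] at h2
    push_cast at h2
    have e : |((i : ℕ) : ℝ) - (((i : ℕ) : ℝ) + 1)| = 1 := by
      rw [show ((i : ℕ) : ℝ) - (((i : ℕ) : ℝ) + 1) = -1 by ring]
      norm_num
    rw [e, one_mul] at h2
    have h3 : (T : ℝ) ≤ (nm (a (f i) - a (f j)) : ℕ) := by exact_mod_cast h1
    linarith
  have hall : ∀ l : ℕ, ∀ hl : l < k + 1, a (f ⟨l, hl⟩) = a (f 0) := by
    intro l
    induction l with
    | zero => intro hl; rfl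
    | succ l ih =>
      intro hl
      rw [← ih (by omega)]
      exact (hcell ⟨l, by omega⟩ ⟨l + 1, hl⟩ rfl).symm
  have hlast := hall k (by omega)
  -- the diameter of the cell
  have hdiam : (∑ t : Fin n, |f ⟨k, by omega⟩ t - f 0 t|) * T ≤ n * m := by
    rw [Finset.sum_mul]
    have : ∀ t : Fin n, |f ⟨k, by omega⟩ t - f 0 t| * T ≤ m := by
      intro t
      obtain ⟨h1, h2⟩ := hpos (f ⟨k, by omega⟩) t
      obtain ⟨h3, h4⟩ := hpos (f 0) t
      rw [hsh' ⟨k, by omega⟩ 0, hlast] at h1 h2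
      have e : |f ⟨k, by omega⟩ t - f 0 t| * T = |f ⟨k, by omega⟩ t * T - f 0 t * T| := by
        rw [← sub_mul, abs_mul, abs_of_pos hTr]
      rw [e, abs_le]
      constructor <;> linarith
    refine (Finset.sum_le_sum fun t _ => this t).trans ?_
    simp
  rw [hf] at hdiam
  simp only [Fin.val_zero, Nat.cast_zero, sub_zero, Nat.abs_cast] at hdiam
  have : (n : ℝ) * m < k * T := by exact_mod_cast hk
  linarith

end Pool.Agent.H25.MB
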