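import Pool.Agent.H25.MB.M2

set_option autoImplicit false

namespace Pool.Agent.H25.MB

open Finset Filter

theorem exists_m (δ : ℝ) (hδ : 0 < δ) : ∃ m : ℕ, 1 ≤ m ∧ Real.log ((m : ℝ) + 1) ≤ δ * m := by
  have h := Real.isLittleO_log_id_atTop.def (show (0 : ℝ) < δ / 2 by positivity)
  have h2 := (tendsto_natCast_atTop_atTop (R := ℝ)).eventually h
  obtain ⟨m, hm1, hm2⟩ := ((h2.and (eventually_ge_atTop 2)).exists)
  refine ⟨m - 1, by omega, ?_⟩
  have e : ((m - 1 : ℕ) : ℝ) = m - 1 := by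
    rw [Nat.cast_sub (by omega)]
    simp
  rw [e, sub_add_cancel]
  have hm : (2 : ℝ) ≤ m := by exact_mod_cast hm2
  have h3 : Real.log m ≤ ‖Real.log (m : ℝ)‖ := le_abs_self _
  have h4 : ‖(id (m : ℝ))‖ = m := by
    simp
  rw [h4] at hm1
  nlinarith

theorem main (ε : ℝ) (hε : 0 < ε) : ∃ k : ℕ, ∀ η : ℝ, 0 < η → ∃ N : ℕ, ∀ n : ℕ, N ≤ n →
      ∃ m : ℕ, (m : ℝ) ≤ (1 + ε + η) ^ n ∧
        ∃ c : (Fin n → ℝ) → Fin m,
          ∀ f : Fin (k + 1) → (Fin n → ℝ),
            (∀ i j : Fin (k + 1),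
              ∑ t : Fin n, |f i t - f j t| = |((i : ℕ) : ℝ) - ((j : ℕ) : ℝ)|) →
            ∃ i j : Fin (k + 1), c (f i) ≠ c (f j) := by
  have hl : 0 < Real.log (1 + ε) := Real.log_pos (by linarith)
  set δ : ℝ := Real.log (1 + ε) / 3 with hδ
  have hδ0 : 0 < δ := by positivity
  obtain ⟨m, hm, hm2⟩ := exists_m δ hδ0
  -- the parameter `z`
  have hed : 1 < Real.exp δ := Real.one_lt_exp_iff.2 hδ0
  set z : ℝ := (Real.exp δ - 1) / (Real.exp δ + 1) with hz
  have hz0 : 0 < z := div_pos (by linarith) (by linarith)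
  have hz1 : z < 1 := by
    rw [hz, div_lt_one (by linarith)]
    linarith
  have hzz : (1 + z) / (1 - z) = Real.exp δ := by
    have h1 : (1 - z) ≠ 0 := by linarith
    have h2 : Real.exp δ + 1 ≠ 0 := by linarith
    rw [div_eq_iff h1, hz]
    field_simp
    ring
  set w : ℝ := Real.log (1 / z) with hw
  have hw0 : 0 < w := Real.log_pos (by rw [lt_div_iff₀ hz0]; linarith)
  obtain ⟨q, hq⟩ := exists_nat_gt (w / δ)
  have hq0 : 0 < q := by
    have : (0 : ℝ) < q := lt_trans (by positivity) hq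
    exact_mod_cast this
  have hq2 : w ≤ δ * q := by
    rw [div_lt_iff₀ hδ0] at hq
    linarith
  refine ⟨m * q, fun η hη => ?_⟩
  -- the number `N`
  have hgap : 0 < Real.log (1 + ε + η) - Real.log (1 + ε) :=
    sub_pos.2 (Real.log_lt_log (by linarith) (by linarith))
  obtain ⟨N, hN⟩ := exists_nat_gt ((Real.log ((m : ℝ) + 1) + w) /
    (Real.log (1 + ε + η) - Real.log (1 + ε)))
  refine ⟨N, fun n hn => ?_⟩
  set T : ℕ := n / q + 1 with hT
  obtain ⟨c, hc⟩ := colouring n m T hm (Nat.succ_pos _)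
  have hkT : n * m < m * q * T := by
    have h1 : n < q * T := by
      rw [hT]
      exact Nat.lt_mul_div_succ n hq0
    calc n * m < (q * T) * m := Nat.mul_lt_mul_of_pos_right h1 hm
      _ = m * q * T := by ring
  -- the colours
  let α := (Fin (n / m + 1) → Fin (m + 1)) × {v // v ∈ Ball n T}
  refine ⟨Fintype.card α, ?_, fun x => Fintype.equivFin α (c x), ?_⟩
  · have hcard : (Fintype.card α : ℝ) = ((m : ℝ) + 1) ^ (n / m + 1) * (Ball n T).card := by
      simp [α, Fintype.card_prod]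
    rw [hcard]
    have hB := card_Ball n T z hz0 hz1
    rw [hzz] at hB
    have hzT : 0 < z ^ T := pow_pos hz0 T
    have hB2 : ((Ball n T).card : ℝ) ≤ Real.exp δ ^ n * (1 / z) ^ T := by
      rw [one_div, inv_pow, ← div_eq_mul_inv, le_div_iff₀ hzT]
      exact hB
    have hm0 : (0 : ℝ) < (m : ℝ) + 1 := by positivity
    refine (mul_le_mul_of_nonneg_left hB2 (by positivity)).trans ?_
    have hlhs : ((m : ℝ) + 1) ^ (n / m + 1) * (Real.exp δ ^ n * (1 / z) ^ T) =
        Real.exp (((n / m : ℕ) + 1) * Real.log ((m : ℝ) + 1) + (n * δ + T * w)) := by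
      rw [Real.exp_add, Real.exp_add]
      congr 1
      · rw [show (((n / m : ℕ) : ℝ) + 1) = ((n / m + 1 : ℕ) : ℝ) by push_cast; ring,
          Real.exp_nat_mul, Real.exp_log hm0]
      · congr 1
        · rw [Real.exp_nat_mul]
        · rw [Real.exp_nat_mul, hw, Real.exp_log (by positivity)]
    have hrhs : (1 + ε + η) ^ n = Real.exp (n * Real.log (1 + ε + η)) := by
      rw [Real.exp_nat_mul, Real.exp_log (by linarith)]
    rw [hlhs, hrhs]
    refine Real.exp_le_exp.2 ?_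
    have hmr : (0 : ℝ) < m := by exact_mod_cast hm
    have hqr : (0 : ℝ) < q := by exact_mod_cast hq0
    have hn0 : (0 : ℝ) ≤ n := Nat.cast_nonneg n
    have k1 : ((n / m : ℕ) : ℝ) ≤ n / m := Nat.cast_div_le
    have k2 : ((n / q : ℕ) : ℝ) ≤ n / q := Nat.cast_div_le
    have k3 : ((n / m : ℕ) : ℝ) * Real.log ((m : ℝ) + 1) ≤ n * δ := by
      have hlm : 0 ≤ Real.log ((m : ℝ) + 1) := Real.log_nonneg (by linarith)
      calc ((n / m : ℕ) : ℝ) * Real.log ((m : ℝ) + 1) ≤ (n / m) * Real.log ((m : ℝ) + 1) :=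
            mul_le_mul_of_nonneg_right k1 hlm
        _ ≤ (n / m) * (δ * m) := mul_le_mul_of_nonneg_left hm2 (by positivity)
        _ = n * δ := by field_simp
    have k4 : ((n / q : ℕ) : ℝ) * w ≤ n * δ := by
      calc ((n / q : ℕ) : ℝ) * w ≤ (n / q) * w := mul_le_mul_of_nonneg_right k2 hw0.le
        _ ≤ (n / q) * (δ * q) := mul_le_mul_of_nonneg_left hq2 (by positivity)
        _ = n * δ := by field_simp
    have k5 : (T : ℝ) = (n / q : ℕ) + 1 := by
      rw [hT]
      push_cast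
      ring
    have k6 : Real.log ((m : ℝ) + 1) + w ≤ n * (Real.log (1 + ε + η) - Real.log (1 + ε)) := by
      rw [div_lt_iff₀ hgap] at hN
      have h1 : (N : ℝ) ≤ n := by exact_mod_cast hn
      have h2 := mul_le_mul_of_nonneg_right h1 hgap.le
      linarith
    have k7 : n * Real.log (1 + ε) = 3 * (n * δ) := by
      rw [hδ]
      ring
    rw [k5]
    nlinarith
  · intro f hf
    obtain ⟨i, j, hij⟩ := hc (m * q) hkT f hf
    exact ⟨i, j, fun h => hij ((Fintype.equivFin α).injective h)⟩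

end Pool.Agent.H25.MB
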